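import Mathlib

/-!
Definitions for the inverse Galois problem over rational function fields.
-/

set_option autoImplicit false

universe u

namespace MP7fR

/-- The finite group `G` *occurs* over the field `F`: there is a finite Galois extension of `F`
whose Galois group is isomorphic to `G`. -/
def Occurs (G : Type) [Group G] (F : Type u) [Field F] : Prop :=
  ∃ (L : Type u) (_ : Field L) (_ : Algebra F L),
    FiniteDimensional F L ∧ IsGalois F L ∧ Nonempty ((L ≃ₐ[F] L) ≃* G)

/-- The finite group `G` *occurs regularly* over the field `k`: there is a finite Galois
extension `L` of the rational function field `k(X)` whose Galois group is isomorphic to `G` and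
in which `k` is algebraically closed, that is, every element of `L` which is a root of a nonzero
polynomial with coefficients in `k` lies in (the image of) `k`. -/
def OccursRegularly (G : Type) [Group G] (k : Type u) [Field k] : Prop :=
  ∃ (L : Type u) (_ : Field L) (_ : Algebra (RatFunc k) L),
    FiniteDimensional (RatFunc k) L ∧ IsGalois (RatFunc k) L ∧
      Nonempty ((L ≃ₐ[RatFunc k] L) ≃* G) ∧
      ∀ x : L, (∃ f : Polynomial k, f ≠ 0 ∧
          Polynomial.eval₂ ((algebraMap (RatFunc k) L).comp (algebraMap k (RatFunc k))) x f = 0) →
        ∃ c : k, algebraMap (RatFunc k) L (algebraMap k (RatFunc k) c) = x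

/-- A field `K` is *Hilbertian* if for every polynomial `f(T, Y)` with coefficients in `K` which,
as a polynomial in `Y`, is irreducible and separable over `K(T)`, and for every nonzero
`g(T)`, there is `a` in `K` with `g(a) ≠ 0` for which `f(a, Y)` is irreducible over `K`. -/
def IsHilbertian (K : Type u) [Field K] : Prop :=
  ∀ f : Polynomial (Polynomial K),
    Irreducible (f.map (algebraMap (Polynomial K) (RatFunc K))) →
    (f.map (algebraMap (Polynomial K) (RatFunc K))).Separable →
    ∀ g : Polynomial K, g ≠ 0 →
      ∃ a : K, g.eval a ≠ 0 ∧ Irreducible (f.map (Polynomial.evalRingHom a))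

end MP7fR
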