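import Pool.Agent.Lib.MP_7f581e_ntR.Defs

/-!
Specialization: over a Hilbertian field `K` every finite group that occurs over `K(X)` occurs
over `K`.
-/

set_option autoImplicit false

universe u v

namespace MP7fR

open IntermediateField Polynomial
open scoped Pointwise

/-- `Occurs` is transported along isomorphisms of base fields. -/
theorem Occurs.of_ringEquiv {G : Type} [Group G] {F F' : Type u} [Field F] [Field F']
    (r : F ≃+* F') (h : Occurs G F') : Occurs G F := by
  obtain ⟨L, _, _, hfd, hgal, ⟨e⟩⟩ := h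
  let _ : Algebra F F' := r.toRingHom.toAlgebra
  let _ : Algebra F L := ((algebraMap F' L).comp r.toRingHom).toAlgebra
  have htow : IsScalarTower F F' L := IsScalarTower.of_algebraMap_eq (fun _ => rfl)
  have hsurj : Function.Surjective (algebraMap F F') := r.surjective
  have hfdF : Module.Finite F F' := by
    refine Module.Finite.of_surjective (Algebra.linearMap F F') ?_
    exact hsurj
  refine ⟨L, inferInstance, inferInstance, Module.Finite.trans F' L, ?_,
    ⟨(AlgEquiv.extendScalarsHomOfSurjective (A := L) hsurj).trans e⟩⟩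
  refine IsGalois.of_equiv_equiv (F := F') (E := L) (f := r.symm) (g := RingEquiv.refl L) ?_
  ext x
  change algebraMap F' L (r (r.symm x)) = algebraMap F' L x
  rw [r.apply_symm_apply]

/-- The residue field step. -/
theorem occurs_residue {G : Type} [Group G] [Finite G] {A : Type u} {E L : Type v} [CommRing A]
    [IsDomain A] [IsIntegrallyClosed A]
    [Field E] [Field L] [Algebra A E] [IsFractionRing A E] [Algebra E L] [Algebra A L]
    [IsScalarTower A E L] [FiniteDimensional E L] [IsGalois E L] (e : (L ≃ₐ[E] L) ≃* G)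
    (a : L) (ha : IsIntegral A a) (hdeg : Module.finrank E L = (minpoly A a).natDegree)
    (P : Ideal A) [hP : P.IsMaximal]
    (hirr : Irreducible ((minpoly A a).map (Ideal.Quotient.mk P)))
    (hsep : derivative ((minpoly A a).map (Ideal.Quotient.mk P)) ≠ 0) :
    ∃ (k₀ : Type u) (_ : Field k₀) (_ : A ⧸ P ≃+* k₀) (M : Type v) (_ : Field M)
      (_ : Algebra k₀ M), FiniteDimensional k₀ M ∧ IsGalois k₀ M ∧
        Nonempty ((M ≃ₐ[k₀] M) ≃* G) := by
  let B := integralClosure A L
  have : IsFractionRing B L := integralClosure.isFractionRing_of_finite_extension E L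
  let _ := IsIntegralClosure.MulSemiringAction A E L B
  have hinv : Algebra.IsInvariant A B (L ≃ₐ[E] L) := Algebra.isInvariant_of_isGalois A E L B
  have hcomm : SMulCommClass (L ≃ₐ[E] L) A B :=
    ⟨fun g x y => map_smul (galRestrict A E L B g) x y⟩
  have hinj : Function.Injective (algebraMap A L) := by
    rw [IsScalarTower.algebraMap_eq A E L]
    exact (algebraMap E L).injective.comp (IsFractionRing.injective A E)
  have hfaith : FaithfulSMul A B := by
    rw [faithfulSMul_iff_algebraMap_injective]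
    intro x y hxy
    exact hinj (congrArg (algebraMap B L) hxy)
  obtain ⟨Q, hQ, hQP⟩ := Ideal.exists_maximal_ideal_liesOver_of_isIntegral (S := B) P
  let _ : Field (A ⧸ P) := Ideal.Quotient.field P
  let _ : Field (B ⧸ Q) := Ideal.Quotient.field Q
  have hnorm : Normal (A ⧸ P) (B ⧸ Q) := Ideal.Quotient.normal (L ≃ₐ[E] L) P Q
  set f : (A ⧸ P)[X] := (minpoly A a).map (Ideal.Quotient.mk P) with hf
  have hfm : f.Monic := (minpoly.monic ha).map _
  let b : B := ⟨a, ha⟩
  let c : B ⧸ Q := Ideal.Quotient.mk Q b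
  have hb0 : aeval b (minpoly A a) = 0 := by
    apply Subtype.ext
    have h1 : aeval ((algebraMap B L) b) (minpoly A a) = 0 := minpoly.aeval A a
    rw [aeval_algebraMap_apply] at h1
    exact h1
  have hc0 : aeval c f = 0 := by
    rw [hf, aeval_def, eval₂_map]
    have h1 : (algebraMap (A ⧸ P) (B ⧸ Q)).comp (Ideal.Quotient.mk P) =
        (Ideal.Quotient.mk Q).comp (algebraMap A B) := by
      ext x
      rfl
    rw [h1]
    have h2 := congrArg (Ideal.Quotient.mk Q) hb0
    rw [aeval_def, hom_eval₂, map_zero] at h2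
    exact h2
  have hmin : minpoly (A ⧸ P) c = f :=
    (minpoly.eq_of_irreducible_of_monic hirr hc0 hfm).symm
  have hfsep : f.Separable := (separable_iff_derivative_ne_zero hirr).mpr hsep
  have hsplit : (f.map (algebraMap (A ⧸ P) (B ⧸ Q))).Splits := by
    rw [← hmin]
    exact hnorm.splits c
  let M := IntermediateField.adjoin (A ⧸ P) (f.rootSet (B ⧸ Q))
  have hMs : f.IsSplittingField (A ⧸ P) M :=
    IntermediateField.adjoin_rootSet_isSplittingField hsplit
  have hMg : IsGalois (A ⧸ P) M := IsGalois.of_separable_splitting_field hfsep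
  have hMf : FiniteDimensional (A ⧸ P) M := IsSplittingField.finiteDimensional M f
  have hcM : c ∈ M := by
    apply IntermediateField.subset_adjoin
    rw [mem_rootSet]
    exact ⟨hfm.ne_zero, hc0⟩
  have hn1 : f.natDegree ≤ Module.finrank (A ⧸ P) M := by
    have h1 : minpoly (A ⧸ P) (⟨c, hcM⟩ : M) = f := by
      rw [← hmin]
      exact minpoly.algebraMap_eq (algebraMap M (B ⧸ Q)).injective (⟨c, hcM⟩ : M) |>.symm
    rw [← h1]
    exact minpoly.natDegree_le _
  have hfn : f.natDegree = Module.finrank E L := by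
    rw [hf, (minpoly.monic ha).natDegree_map, hdeg]
  have hcard1 : Nat.card (M ≃ₐ[A ⧸ P] M) = Module.finrank (A ⧸ P) M :=
    IsGalois.card_aut_eq_finrank _ _
  have hcard2 : Nat.card (L ≃ₐ[E] L) = Module.finrank E L := IsGalois.card_aut_eq_finrank _ _
  let S : Subgroup (L ≃ₐ[E] L) := MulAction.stabilizer (L ≃ₐ[E] L) Q
  let r : S →* (M ≃ₐ[A ⧸ P] M) :=
    (AlgEquiv.restrictNormalHom (F := A ⧸ P) (K₁ := B ⧸ Q) M).comp
      (Ideal.Quotient.stabilizerHom Q P (L ≃ₐ[E] L))
  have hr : Function.Surjective r :=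
    (AlgEquiv.restrictNormalHom_surjective (F := A ⧸ P) (K₁ := M) (B ⧸ Q)).comp
      (Ideal.Quotient.stabilizerHom_surjective (L ≃ₐ[E] L) P Q)
  have hcard3 : Nat.card (M ≃ₐ[A ⧸ P] M) ≤ Nat.card S := Nat.card_le_card_of_surjective r hr
  have hcard4 : Nat.card S ≤ Nat.card (L ≃ₐ[E] L) :=
    Nat.card_le_card_of_injective _ S.subtype_injective
  have hS : S = ⊤ := Subgroup.eq_top_of_card_eq S (by omega)
  have hbij : Function.Bijective r := by
    have h1 : Nat.card S = Nat.card (M ≃ₐ[A ⧸ P] M) := by omega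
    exact (Nat.bijective_iff_surjective_and_card r).mpr ⟨hr, h1⟩
  let eS : (L ≃ₐ[E] L) ≃* S := (Subgroup.topEquiv.symm).trans (MulEquiv.subgroupCongr hS.symm)
  exact ⟨A ⧸ P, inferInstance, RingEquiv.refl _, M, inferInstance, inferInstance, hMf, hMg,
    ⟨((eS.trans (MulEquiv.ofBijective r hbij)).symm).trans e⟩⟩

end MP7fR
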