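import Pool.Agent.Lib.MP_7f581e_ntR.Reg
import Pool.Agent.Lib.MP_7f581e_ntR.Hilb

/-!
Assembly.
-/

set_option autoImplicit false

universe u v

namespace MP7fR

open IntermediateField Polynomial

/-- Over a Hilbertian field `K`, a finite group that occurs over `K(X)` occurs over `K`. -/
theorem occurs_of_isHilbertian {G : Type} [Group G] [Finite G] {K : Type u} [Field K]
    (hK : IsHilbertian K) (h : Occurs G (RatFunc K)) : Occurs G K := by
  obtain ⟨L, _, _, hfd, hgal, ⟨e⟩⟩ := h
  let _ : Algebra K[X] L :=
    ((algebraMap (RatFunc K) L).comp (algebraMap K[X] (RatFunc K))).toAlgebra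
  have htow : IsScalarTower K[X] (RatFunc K) L := IsScalarTower.of_algebraMap_eq (fun _ => rfl)
  obtain ⟨pb, hint⟩ := exists_integral_powerBasis (R := K[X]) (F := RatFunc K) (L := L)
  have hmin : minpoly (RatFunc K) pb.gen =
      (minpoly K[X] pb.gen).map (algebraMap K[X] (RatFunc K)) :=
    minpoly.isIntegrallyClosed_eq_field_fractions' (RatFunc K) hint
  have hirr : Irreducible ((minpoly K[X] pb.gen).map (algebraMap K[X] (RatFunc K))) := by
    rw [← hmin]
    exact minpoly.irreducible pb.isIntegral_gen
  have hsep : ((minpoly K[X] pb.gen).map (algebraMap K[X] (RatFunc K))).Separable := by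
    rw [← hmin]
    exact Algebra.IsSeparable.isSeparable (RatFunc K) pb.gen
  have hder : derivative (minpoly K[X] pb.gen) ≠ 0 := by
    intro h0
    have h1 := (separable_iff_derivative_ne_zero hirr).mp hsep
    apply h1
    rw [derivative_map, h0, Polynomial.map_zero]
  obtain ⟨i, hi⟩ : ∃ i, (derivative (minpoly K[X] pb.gen)).coeff i ≠ 0 := by
    by_contra hcon
    push Not at hcon
    apply hder
    ext1 i
    rw [hcon i, coeff_zero]
  obtain ⟨a, ha, hairr⟩ := hK (minpoly K[X] pb.gen) hirr hsep _ hi
  have hsurj : Function.Surjective (evalRingHom a : K[X] →+* K) := fun c => ⟨C c, by simp⟩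
  let P : Ideal K[X] := RingHom.ker (evalRingHom a)
  have hP : P.IsMaximal := RingHom.ker_isMaximal_of_surjective _ hsurj
  let r : K[X] ⧸ P ≃+* K := RingHom.quotientKerEquivOfSurjective hsurj
  have hr : r.toRingHom.comp (Ideal.Quotient.mk P) = evalRingHom a := by
    refine RingHom.ext fun p => ?_
    rfl
  have hmapr : ((minpoly K[X] pb.gen).map (Ideal.Quotient.mk P)).map r.toRingHom =
      (minpoly K[X] pb.gen).map (evalRingHom a) := by
    rw [Polynomial.map_map, hr]
  have hirrP : Irreducible ((minpoly K[X] pb.gen).map (Ideal.Quotient.mk P)) := by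
    rw [← MulEquiv.irreducible_iff (Polynomial.mapEquiv r)]
    have : (Polynomial.mapEquiv r) ((minpoly K[X] pb.gen).map (Ideal.Quotient.mk P)) =
        (minpoly K[X] pb.gen).map (evalRingHom a) := hmapr
    rw [this]
    exact hairr
  have hsepP : derivative ((minpoly K[X] pb.gen).map (Ideal.Quotient.mk P)) ≠ 0 := by
    intro h0
    apply ha
    have h1 := congrArg (fun q => (q.map r.toRingHom).coeff i) h0
    simp only [Polynomial.map_zero, coeff_zero] at h1
    rw [← derivative_map, hmapr, derivative_map, coeff_map] at h1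
    exact h1
  obtain ⟨k₀, _, r₀, M, _, _, h1, h2, h3⟩ := occurs_residue e pb.gen hint (by
    rw [pb.finrank, ← pb.natDegree_minpoly, hmin, (minpoly.monic hint).natDegree_map])
    P hirrP hsepP
  exact Occurs.of_ringEquiv (r.symm.trans r₀) ⟨M, inferInstance, inferInstance, h1, h2, h3⟩

/-- A regular realization is a realization. -/
theorem OccursRegularly.occurs {G : Type} [Group G] {k : Type u} [Field k]
    (h : OccursRegularly G k) : Occurs G (RatFunc k) := by
  obtain ⟨L, i1, i2, h1, h2, h3, _⟩ := h
  exact ⟨L, i1, i2, h1, h2, h3⟩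

/-- **Per group theorem.** -/
theorem per_group {G : Type} [Group G] [Finite G] {N : ℕ}
    (hN : (Nat.card (Abelianization G)).primeFactors.card < N)
    {k : Type u} [Field k] [Finite k] (h : Occurs (Fin N → G) (RatFunc k)) :
    (∀ (K : Type v) [Field K] [Algebra k K], OccursRegularly G K) ∧
      ∀ (K : Type v) [Field K] [Algebra k K], IsHilbertian K → Occurs G K := by
  have hreg : OccursRegularly G k := occursRegularly_of_pow hN h
  exact ⟨fun K _ _ => occursRegularly_baseChange hreg,
    fun K _ _ hK => occurs_of_isHilbertian hK (occursRegularly_baseChange hreg).occurs⟩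

end MP7fR
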