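import Mathlib

/-!
Base change of a Galois extension, and preservation of regularity.
-/

set_option autoImplicit false

namespace MP7fR

open IntermediateField Polynomial TensorProduct

section galois

variable {F E L : Type*} [Field F] [Field E] [Field L] [Algebra F E] [Algebra F L]

theorem natDegree_minpoly_gen (pb : PowerBasis F L) :
    (minpoly F pb.gen).natDegree = pb.dim := pb.natDegree_minpoly

/-- The base change is a field, presented by adjoining a root. -/
theorem exists_algEquiv_tensor (pb : PowerBasis F L)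
    [hirr : Fact (Irreducible ((minpoly F pb.gen).map (algebraMap F E)))] :
    Nonempty (AdjoinRoot ((minpoly F pb.gen).map (algebraMap F E)) ≃ₐ[E] E ⊗[F] L) := by
  have : FiniteDimensional F L := pb.finite
  set f := (minpoly F pb.gen).map (algebraMap F E) with hf
  have hfm : f.Monic := (minpoly.monic pb.isIntegral_gen).map _
  have h0 : f.eval₂ (Algebra.ofId E (E ⊗[F] L) : E →+* E ⊗[F] L) ((1 : E) ⊗ₜ[F] pb.gen) = 0 := by
    rw [hf, eval₂_map]
    have h1 : ((Algebra.ofId E (E ⊗[F] L) : E →+* E ⊗[F] L)).comp (algebraMap F E) =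
        (Algebra.TensorProduct.includeRight : L →ₐ[F] E ⊗[F] L).toRingHom.comp
          (algebraMap F L) := by
      ext x
      simp [Algebra.algebraMap_eq_smul_one]
    rw [h1]
    have h2 : ((1 : E) ⊗ₜ[F] pb.gen) =
        (Algebra.TensorProduct.includeRight : L →ₐ[F] E ⊗[F] L).toRingHom pb.gen := rfl
    rw [h2, ← hom_eval₂]
    have h3 : eval₂ (algebraMap F L) pb.gen (minpoly F pb.gen) = 0 := minpoly.aeval F pb.gen
    rw [h3, map_zero]
  let r : AdjoinRoot f →ₐ[E] E ⊗[F] L :=
    AdjoinRoot.liftAlgHom f (Algebra.ofId E (E ⊗[F] L)) ((1 : E) ⊗ₜ[F] pb.gen) h0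
  have hfd : FiniteDimensional E (AdjoinRoot f) := hfm.finite_adjoinRoot
  have hrank : Module.finrank E (AdjoinRoot f) = Module.finrank E (E ⊗[F] L) := by
    rw [(AdjoinRoot.powerBasis' hfm).finrank, AdjoinRoot.powerBasis'_dim,
      Module.finrank_baseChange, pb.finrank, hf, natDegree_map, pb.natDegree_minpoly]
  have hinj : Function.Injective r := r.toRingHom.injective
  have hsurj : Function.Surjective r :=
    (LinearMap.injective_iff_surjective_of_finrank_eq_finrank (f := r.toLinearMap) hrank).mp hinj
  exact ⟨AlgEquiv.ofBijective r ⟨hinj, hsurj⟩⟩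

/-- The action of the Galois group on the base change. -/
noncomputable def autHom (F E L : Type*) [Field F] [Field E] [Field L] [Algebra F E]
    [Algebra F L] : (L ≃ₐ[F] L) →* (E ⊗[F] L ≃ₐ[E] E ⊗[F] L) where
  toFun s := Algebra.TensorProduct.congr AlgEquiv.refl s
  map_one' := by
    apply AlgEquiv.ext
    intro x
    induction x using TensorProduct.induction_on with
    | zero => simp
    | tmul a b => simp
    | add a b ha hb => rw [map_add, map_add, ha, hb]
  map_mul' s t := by
    apply AlgEquiv.ext
    intro x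
    induction x using TensorProduct.induction_on with
    | zero => simp
    | tmul a b => simp
    | add a b ha hb => rw [map_add, map_add, ha, hb]

theorem autHom_injective : Function.Injective (autHom F E L) := by
  intro s t hst
  apply AlgEquiv.ext
  intro x
  have h1 := DFunLike.congr_fun hst ((1 : E) ⊗ₜ[F] x)
  have h2 : (1 : E) ⊗ₜ[F] (s x) = (1 : E) ⊗ₜ[F] (t x) := by simpa [autHom] using h1
  exact (Algebra.TensorProduct.includeRight_injective (R := F) (A := E) (B := L)
    (algebraMap F E).injective) h2

/-- Base change of a Galois extension. -/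
theorem galois_baseChange [FiniteDimensional F L] [IsGalois F L] (pb : PowerBasis F L)
    [hirr : Fact (Irreducible ((minpoly F pb.gen).map (algebraMap F E)))] :
    FiniteDimensional E (AdjoinRoot ((minpoly F pb.gen).map (algebraMap F E))) ∧
    IsGalois E (AdjoinRoot ((minpoly F pb.gen).map (algebraMap F E))) ∧
    Nonempty (((AdjoinRoot ((minpoly F pb.gen).map (algebraMap F E))) ≃ₐ[E]
      (AdjoinRoot ((minpoly F pb.gen).map (algebraMap F E)))) ≃* (L ≃ₐ[F] L)) := by
  obtain ⟨r⟩ := exists_algEquiv_tensor (E := E) pb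
  set f := (minpoly F pb.gen).map (algebraMap F E) with hf
  have hfm : f.Monic := (minpoly.monic pb.isIntegral_gen).map _
  have hfd : FiniteDimensional E (AdjoinRoot f) := hfm.finite_adjoinRoot
  have hrank : Module.finrank E (AdjoinRoot f) = Module.finrank F L := by
    rw [(AdjoinRoot.powerBasis' hfm).finrank, AdjoinRoot.powerBasis'_dim, pb.finrank, hf,
      natDegree_map, pb.natDegree_minpoly]
  let T : (L ≃ₐ[F] L) →* (AdjoinRoot f ≃ₐ[E] AdjoinRoot f) :=
    (AlgEquiv.autCongr r.symm).toMonoidHom.comp (autHom F E L)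
  have hT : Function.Injective T :=
    (AlgEquiv.autCongr r.symm).injective.comp autHom_injective
  have hc1 : Nat.card (L ≃ₐ[F] L) = Module.finrank F L := IsGalois.card_aut_eq_finrank F L
  have hc2 : Nat.card (AdjoinRoot f ≃ₐ[E] AdjoinRoot f) ≤ Module.finrank E (AdjoinRoot f) := by
    have := AlgEquiv.card_le (F := E) (K := AdjoinRoot f)
    rwa [← Nat.card_eq_fintype_card] at this
  have hc3 : Nat.card (L ≃ₐ[F] L) ≤ Nat.card (AdjoinRoot f ≃ₐ[E] AdjoinRoot f) :=
    Nat.card_le_card_of_injective T hT
  have hc4 : Nat.card (AdjoinRoot f ≃ₐ[E] AdjoinRoot f) = Module.finrank E (AdjoinRoot f) := by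
    omega
  have hbij : Function.Bijective T := by
    refine (Nat.bijective_iff_injective_and_card T).mpr ⟨hT, ?_⟩
    omega
  exact ⟨hfd, IsGalois.of_card_aut_eq_finrank E _ hc4, ⟨(MulEquiv.ofBijective T hbij).symm⟩⟩

end galois

end MP7fR
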