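import Pool.Agent.Lib.MP_7f581e_ntR.Grp
import Pool.Agent.Lib.MP_7f581e_ntR.Defs

/-!
The pigeonhole argument: a `G^N`-extension contains a `G`-extension without new constants.
-/

set_option autoImplicit false

universe u

namespace MP7fR

open IntermediateField

/-- Pigeonhole: if `Gal(L/F)` is `G^N` with `N` larger than the number of primes dividing the
order of the abelianization of `G`, and the finite field `k` is algebraically closed in `F`, then
for some `i` the field `k` is algebraically closed in the fixed field of the `i`-th kernel. -/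
theorem exists_regular_coordinate {G : Type*} [Group G] [Finite G] {N : ℕ}
    (hN : (Nat.card (Abelianization G)).primeFactors.card < N)
    {k F L : Type*} [Field k] [Finite k] [Field F] [Field L] [Algebra k F] [Algebra F L]
    [Algebra k L] [IsScalarTower k F L] [FiniteDimensional F L] [IsGalois F L]
    (hk : ∀ y : F, IsIntegral k y → ∃ c : k, algebraMap k F c = y)
    (e : (L ≃ₐ[F] L) ≃* (Fin N → G)) :
    ∃ i : Fin N, ∀ x : L, x ∈ fixedField ((Pi.evalMonoidHom (fun _ : Fin N => G) i).comp
      e.toMonoidHom).ker → IsIntegral k x → ∃ c : k, algebraMap k L c = x := by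
  classical
  by_contra hcon
  push Not at hcon
  choose x hxm hxi hxc using hcon
  let k₁ : IntermediateField k L := IntermediateField.adjoin k (Set.range x)
  have hfd : FiniteDimensional k k₁ := by
    apply IntermediateField.finiteDimensional_adjoin
    rintro _ ⟨i, rfl⟩
    exact hxi i
  have hfin : Finite k₁ := Module.finite_of_finite k
  have hgal : IsGalois k k₁ := inferInstance
  let r : (L ≃ₐ[F] L) →* (k₁ ≃ₐ[k] k₁) :=
    (AlgEquiv.restrictNormalHom (F := k) (K₁ := L) k₁).comp (AlgEquiv.restrictScalarsHom k)
  have hr : ∀ (s : L ≃ₐ[F] L) (y : k₁), ((r s y : k₁) : L) = s y := by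
    intro s y
    exact AlgEquiv.restrictNormalHom_apply k₁ (AlgEquiv.restrictScalarsHom k s) y
  have hsurj : Function.Surjective r := by
    rw [← MonoidHom.range_eq_top]
    have h1 : fixedField r.range = (⊥ : IntermediateField k k₁) := by
      rw [eq_bot_iff]
      intro y hy
      rw [mem_fixedField_iff] at hy
      have h2 : ∀ s : L ≃ₐ[F] L, s (y : L) = y := by
        intro s
        rw [← hr s y, hy (r s) ⟨s, rfl⟩]
      have h3 : (y : L) ∈ (⊥ : IntermediateField F L) := (IsGalois.mem_bot_iff_fixed _).mpr h2
      obtain ⟨z, hz⟩ := IntermediateField.mem_bot.mp h3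
      have hyi : IsIntegral k (y : L) := by
        have : IsIntegral k y := Algebra.IsIntegral.isIntegral y
        exact this.map k₁.val
      have hzi : IsIntegral k z := by
        rw [← hz] at hyi
        exact (isIntegral_algHom_iff (IsScalarTower.toAlgHom k F L)
          (algebraMap F L).injective).mp hyi
      obtain ⟨c, hc⟩ := hk z hzi
      refine IntermediateField.mem_bot.mpr ⟨c, ?_⟩
      apply Subtype.ext
      change algebraMap k L c = y
      rw [← hz, ← hc, ← IsScalarTower.algebraMap_apply]
    have h2 := IntermediateField.fixingSubgroup_fixedField r.range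
    rw [h1, IntermediateField.fixingSubgroup_bot] at h2
    exact h2.symm
  obtain ⟨i, hi⟩ := exists_coordinate hN (r.comp e.symm.toMonoidHom)
    (hsurj.comp e.symm.surjective)
  have hxk : x i ∈ k₁ := IntermediateField.subset_adjoin k _ ⟨i, rfl⟩
  have hfix : ∀ c : k₁ ≃ₐ[k] k₁, c ⟨x i, hxk⟩ = ⟨x i, hxk⟩ := by
    intro c
    obtain ⟨g, hg, rfl⟩ := hi c
    apply Subtype.ext
    change ((r (e.symm g) ⟨x i, hxk⟩ : k₁) : L) = x i
    rw [hr]
    have := (mem_fixedField_iff _ _).mp (hxm i) (e.symm g) (by simp [MonoidHom.mem_ker, hg])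
    exact this
  have hbot : (⟨x i, hxk⟩ : k₁) ∈ (⊥ : IntermediateField k k₁) :=
    (IsGalois.mem_bot_iff_fixed _).mpr hfix
  obtain ⟨c, hc⟩ := IntermediateField.mem_bot.mp hbot
  exact hxc i c (congrArg Subtype.val hc)

/-- A field is algebraically closed in its rational function field. -/
theorem ratFunc_isIntegral {k : Type*} [Field k] (y : RatFunc k) (hy : IsIntegral k y) :
    ∃ c : k, algebraMap k (RatFunc k) c = y := by
  by_contra h
  apply RatFunc.transcendental_of_ne_C y _ hy.isAlgebraic
  rintro ⟨c, hc⟩
  exact h ⟨c, by rw [RatFunc.algebraMap_eq_C, hc]⟩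

/-- **Pigeonhole theorem.** Let `k` be a finite field, `G` a finite group and `N` larger than the
number of primes dividing the order of the abelianization of `G`. If `G^N` occurs over `k(X)`,
then `G` occurs regularly over `k`. -/
theorem occursRegularly_of_pow {G : Type} [Group G] [Finite G] {N : ℕ}
    (hN : (Nat.card (Abelianization G)).primeFactors.card < N)
    {k : Type u} [Field k] [Finite k] (h : Occurs (Fin N → G) (RatFunc k)) :
    OccursRegularly G k := by
  classical
  obtain ⟨L, _, _, hfd, hgal, ⟨e⟩⟩ := h
  let _ : Algebra k L := ((algebraMap (RatFunc k) L).comp (algebraMap k (RatFunc k))).toAlgebra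
  have htow : IsScalarTower k (RatFunc k) L := IsScalarTower.of_algebraMap_eq (fun _ => rfl)
  obtain ⟨i, hi⟩ := exists_regular_coordinate (k := k) (F := RatFunc k) (L := L) hN
    ratFunc_isIntegral e
  set q : (L ≃ₐ[RatFunc k] L) →* G :=
    (Pi.evalMonoidHom (fun _ : Fin N => G) i).comp e.toMonoidHom with hq
  have hqs : Function.Surjective q := by
    intro g
    exact ⟨e.symm (Pi.mulSingle i g), by simp [hq]⟩
  refine ⟨fixedField q.ker, inferInstance, inferInstance, inferInstance, inferInstance,
    ⟨(IsGalois.normalAutEquivQuotient q.ker).symm.trans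
      (QuotientGroup.quotientKerEquivOfSurjective q hqs)⟩, ?_⟩
  rintro ⟨x, hx⟩ ⟨f, hf0, hf⟩
  have hxi : IsIntegral k x := by
    rw [← isAlgebraic_iff_isIntegral]
    refine ⟨f, hf0, ?_⟩
    have h1 := congrArg (algebraMap (fixedField q.ker) L) hf
    rw [Polynomial.hom_eval₂, map_zero] at h1
    exact h1
  obtain ⟨c, hc⟩ := hi x hx hxi
  exact ⟨c, Subtype.ext hc⟩

end MP7fR
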