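import Pool.Agent.Lib.MP_7f581e_ntR.Irr
import Pool.Agent.Lib.MP_7f581e_ntR.Pig
import Pool.Agent.Lib.MP_7f581e_ntR.Base

/-!
A regular Galois extension of `k(X)` (with `k` perfect) stays a regular Galois extension with the
same group over `K(X)` for every field extension `K` of `k`.
-/

set_option autoImplicit false

universe u v

namespace MP7fR

open IntermediateField Polynomial

/-- The canonical embedding `k(X) → K(X)`. -/
noncomputable def tau (k : Type u) (K : Type v) [Field k] [Field K] [Algebra k K] :
    RatFunc k →+* RatFunc K :=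
  IsFractionRing.lift (A := k[X]) (K := RatFunc k)
    (g := (algebraMap K[X] (RatFunc K)).comp (mapRingHom (algebraMap k K)))
    ((IsFractionRing.injective K[X] (RatFunc K)).comp
      (Polynomial.map_injective _ (algebraMap k K).injective))

theorem tau_algebraMap (k : Type u) (K : Type v) [Field k] [Field K] [Algebra k K] (p : k[X]) :
    tau k K (algebraMap k[X] (RatFunc k) p) =
      algebraMap K[X] (RatFunc K) (p.map (algebraMap k K)) :=
  IsFractionRing.lift_algebraMap _ p

theorem tau_comp (k : Type u) (K : Type v) (K' : Type v) [Field k] [Field K] [Field K']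
    [Algebra k K] [Algebra k K'] [Algebra K K'] [IsScalarTower k K K'] :
    (tau K K').comp (tau k K) = tau k K' := by
  apply IsLocalization.ringHom_ext (nonZeroDivisors k[X])
  ext p
  · simp only [RingHom.comp_apply, tau_algebraMap, Polynomial.map_map,
      ← IsScalarTower.algebraMap_eq]
  · simp only [RingHom.comp_apply, tau_algebraMap, Polynomial.map_map,
      ← IsScalarTower.algebraMap_eq]

theorem tau_algebraMap' (k : Type u) (K : Type v) [Field k] [Field K] [Algebra k K] (c : k) :
    tau k K (algebraMap k (RatFunc k) c) = algebraMap K (RatFunc K) (algebraMap k K c) := by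
  rw [IsScalarTower.algebraMap_apply k k[X] (RatFunc k), tau_algebraMap,
    IsScalarTower.algebraMap_apply K K[X] (RatFunc K)]
  simp

/-- A root, in a field extension, of a nonzero polynomial over an algebraically closed field lies
in the algebraically closed field. -/
theorem mem_range_of_root {K M : Type*} [Field K] [IsAlgClosed K] [Field M] (ψ : K →+* M)
    (g : K[X]) (hg : g ≠ 0) (y : M) (h : g.eval₂ ψ y = 0) : ∃ c, ψ c = y := by
  let _ : Algebra K M := ψ.toAlgebra
  have hy : IsIntegral K y := isAlgebraic_iff_isIntegral.mp ⟨g, hg, h⟩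
  have h1 : (minpoly K y).degree = 1 :=
    IsAlgClosed.degree_eq_one_of_irreducible K (minpoly.irreducible hy)
  obtain ⟨c, hc⟩ := minpoly.mem_range_of_degree_eq_one K y h1
  exact ⟨c, hc⟩

/-- Coordinates with respect to the powers of a root are preserved by base change. -/
theorem mem_base_of_lift_mem {E E' : Type*} [Field E] [Field E'] (t : E →+* E') (f : E[X])
    (hm : f.Monic) (hd : 0 < f.natDegree)
    (j : AdjoinRoot f →+* AdjoinRoot (f.map t))
    (hj : ∀ q : E[X], j (AdjoinRoot.mk f q) = AdjoinRoot.mk (f.map t) (q.map t))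
    (x : AdjoinRoot f) (e' : E') (h : j x = AdjoinRoot.of (f.map t) e') :
    ∃ e, AdjoinRoot.of f e = x := by
  obtain ⟨q₀, rfl⟩ := AdjoinRoot.mk_surjective x
  set q := q₀ %ₘ f with hq
  have hx : AdjoinRoot.mk f q₀ = AdjoinRoot.mk f q := by
    rw [AdjoinRoot.mk_eq_mk]
    refine ⟨q₀ /ₘ f, ?_⟩
    rw [hq]
    have := modByMonic_add_div q₀ f
    linear_combination (-1 : E[X]) * this
  rw [hx] at h ⊢
  rw [hj, ← AdjoinRoot.mk_C, AdjoinRoot.mk_eq_mk] at h
  have hdeg : (q.map t - C e').degree < (f.map t).degree := by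
    rw [hm.degree_map]
    refine lt_of_le_of_lt (degree_sub_le _ _) (max_lt ?_ ?_)
    · exact lt_of_le_of_lt (degree_map_le) (degree_modByMonic_lt _ hm)
    · refine lt_of_le_of_lt degree_C_le ?_
      rw [degree_eq_natDegree hm.ne_zero]
      exact_mod_cast hd
  have h0 : q.map t - C e' = 0 := eq_zero_of_dvd_of_degree_lt h hdeg
  have hqc : q = C (q.coeff 0) := by
    ext i
    rw [coeff_C]
    split_ifs with hi
    · rw [hi]
    · apply t.injective
      rw [map_zero, ← coeff_map, sub_eq_zero.mp h0, coeff_C, if_neg hi]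
  exact ⟨q.coeff 0, by rw [← AdjoinRoot.mk_C, ← hqc]⟩

/-- A primitive element which is integral over the polynomial ring. -/
theorem exists_integral_powerBasis {R F L : Type*} [CommRing R] [IsDomain R] [Field F]
    [Field L] [Algebra R F] [IsFractionRing R F] [Algebra F L] [Algebra R L] [IsScalarTower R F L]
    [FiniteDimensional F L] [Algebra.IsSeparable F L] :
    ∃ pb : PowerBasis F L, IsIntegral R pb.gen := by
  obtain ⟨z, hz⟩ := Field.exists_primitive_element F L
  have hzalg : IsAlgebraic R z := by
    have h1 : IsAlgebraic F z := Algebra.IsAlgebraic.isAlgebraic z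
    exact (IsFractionRing.isAlgebraic_iff R F L).mpr h1
  obtain ⟨d, hd0, hd⟩ := hzalg.exists_integral_multiple
  have htop : F⟮(d • z : L)⟯ = ⊤ := by
    rw [eq_top_iff, ← hz, adjoin_simple_le_iff]
    have hdF : algebraMap R F d ≠ 0 := by
      intro h
      exact hd0 ((IsFractionRing.injective R F) (by rw [h, map_zero]))
    have h1 : z = algebraMap F L (algebraMap R F d)⁻¹ * (d • z) := by
      rw [Algebra.smul_def, IsScalarTower.algebraMap_apply R F L, ← mul_assoc, ← map_mul,
        inv_mul_cancel₀ hdF, map_one, one_mul]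
    have h2 : algebraMap F L (algebraMap R F d)⁻¹ * (d • z) ∈ F⟮(d • z : L)⟯ :=
      mul_mem ((F⟮(d • z : L)⟯).algebraMap_mem _) (mem_adjoin_simple_self F _)
    rwa [← h1] at h2
  have hint : IsIntegral F (d • z) := Algebra.IsIntegral.isIntegral _
  let pb : PowerBasis F L := (adjoin.powerBasis hint).map
    ((IntermediateField.equivOfEq htop).trans IntermediateField.topEquiv)
  refine ⟨pb, ?_⟩
  have : pb.gen = d • z := by
    simp [pb]
  rw [this]
  exact hd

/-- **Base change of regular realizations.** -/
theorem occursRegularly_baseChange {G : Type} [Group G] {k : Type u} {K : Type v} [Field k]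
    [Field K] [Algebra k K] [PerfectField k] (h : OccursRegularly G k) :
    OccursRegularly G K := by
  obtain ⟨L, _, _, hfd, hgal, ⟨e⟩, hreg⟩ := h
  let F := RatFunc k
  let _ : Algebra k L := ((algebraMap (RatFunc k) L).comp (algebraMap k (RatFunc k))).toAlgebra
  have htow : IsScalarTower k (RatFunc k) L := IsScalarTower.of_algebraMap_eq (fun _ => rfl)
  let _ : Algebra k[X] L :=
    ((algebraMap (RatFunc k) L).comp (algebraMap k[X] (RatFunc k))).toAlgebra
  have htow' : IsScalarTower k[X] (RatFunc k) L := IsScalarTower.of_algebraMap_eq (fun _ => rfl)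
  have hk : ∀ y : L, IsIntegral k y → ∃ c : k, algebraMap k L c = y := by
    rintro y ⟨g, hg, hgy⟩
    exact hreg y ⟨g, hg.ne_zero, hgy⟩
  obtain ⟨pb, hint⟩ := exists_integral_powerBasis (R := k[X]) (F := RatFunc k) (L := L)
  have hmin : minpoly (RatFunc k) pb.gen =
      (minpoly k[X] pb.gen).map (algebraMap k[X] (RatFunc k)) :=
    minpoly.isIntegrallyClosed_eq_field_fractions' (RatFunc k) hint
  have hirr : ∀ (K₁ : Type v) [Field K₁] [Algebra k K₁],
      Irreducible ((minpoly (RatFunc k) pb.gen).map (tau k K₁)) := by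
    intro K₁ _ _
    have h1 := irreducible_map (K := K₁) hk pb hint
    have h2 : (minpoly (RatFunc k) pb.gen).map (tau k K₁) =
        ((minpoly k[X] pb.gen).map (mapRingHom (algebraMap k K₁))).map
          (algebraMap K₁[X] (RatFunc K₁)) := by
      rw [hmin, Polynomial.map_map, Polynomial.map_map]
      congr 1
      refine RingHom.ext fun p => ?_
      rw [RingHom.comp_apply, RingHom.comp_apply, tau_algebraMap]
      rfl
    rw [h2]
    exact (((minpoly.monic hint).map _).irreducible_iff_irreducible_map_fraction_map).mp h1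
  let _ : Algebra (RatFunc k) (RatFunc K) := (tau k K).toAlgebra
  have hirrK : Irreducible ((minpoly (RatFunc k) pb.gen).map
      (algebraMap (RatFunc k) (RatFunc K))) := hirr K
  have hfact := Fact.mk hirrK
  obtain ⟨hfdM, hgalM, ⟨eM⟩⟩ := galois_baseChange (E := RatFunc K) pb
  refine ⟨AdjoinRoot ((minpoly (RatFunc k) pb.gen).map (algebraMap (RatFunc k) (RatFunc K))),
    inferInstance, inferInstance, hfdM, hgalM, ⟨eM.trans e⟩, ?_⟩
  set f := (minpoly (RatFunc k) pb.gen).map (algebraMap (RatFunc k) (RatFunc K)) with hf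
  have hfm : f.Monic := (minpoly.monic pb.isIntegral_gen).map _
  rintro x ⟨g, hg0, hgx⟩
  let K' := AlgebraicClosure K
  let t := tau K K'
  have hirr' : Irreducible (f.map t) := by
    have h1 : f.map t = (minpoly (RatFunc k) pb.gen).map (tau k K') := by
      rw [hf, Polynomial.map_map]
      congr 1
      exact tau_comp k K K'
    rw [h1]
    exact hirr K'
  have hfact' := Fact.mk hirr'
  let j : AdjoinRoot f →+* AdjoinRoot (f.map t) :=
    AdjoinRoot.lift ((AdjoinRoot.of (f.map t)).comp t) (AdjoinRoot.root (f.map t)) (by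
      rw [← eval₂_map]
      exact AdjoinRoot.eval₂_root _)
  have hj : ∀ q, j (AdjoinRoot.mk f q) = AdjoinRoot.mk (f.map t) (q.map t) := by
    intro q
    change AdjoinRoot.lift _ _ _ _ = _
    rw [AdjoinRoot.lift_mk, ← eval₂_map]
    have h1 := AdjoinRoot.aeval_eq (f := f.map t) (q.map t)
    rw [aeval_def] at h1
    exact h1
  have hjof : ∀ y, j (AdjoinRoot.of f y) = AdjoinRoot.of (f.map t) (t y) := by
    intro y
    rw [← AdjoinRoot.mk_C, hj, Polynomial.map_C, AdjoinRoot.mk_C]
  let ψ : K' →+* AdjoinRoot (f.map t) :=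
    (AdjoinRoot.of (f.map t)).comp (algebraMap K' (RatFunc K'))
  obtain ⟨c, hc⟩ := mem_range_of_root ψ (g.map (algebraMap K K'))
    (by rwa [Ne, Polynomial.map_eq_zero]) (j x) (by
      have h1 := congrArg j hgx
      rw [hom_eval₂, map_zero] at h1
      rw [eval₂_map, ← h1]
      congr 1
      ext c
      simp only [ψ, RingHom.comp_apply]
      rw [AdjoinRoot.algebraMap_eq, hjof]
      congr 1
      exact (tau_algebraMap' K K' c).symm)
  obtain ⟨y, hy⟩ := mem_base_of_lift_mem t f hfm hirrK.natDegree_pos j hj x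
    (algebraMap K' (RatFunc K') c) hc.symm
  have hyi : IsIntegral K y := by
    rw [← isAlgebraic_iff_isIntegral]
    refine ⟨g, hg0, ?_⟩
    rw [← hy] at hgx
    apply (AdjoinRoot.of f).injective
    rw [map_zero, ← hgx, aeval_def, hom_eval₂, AdjoinRoot.algebraMap_eq]
  obtain ⟨c₀, hc₀⟩ := ratFunc_isIntegral y hyi
  exact ⟨c₀, by rw [hc₀, AdjoinRoot.algebraMap_eq, hy]⟩

end MP7fR
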