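import Pool.Agent.Lib.MP_7f581e_ntR.Main
import Pool.Agent.Lib.MP_7f581e_nt.AllEven

/-!
Alternating groups of even degree in characteristic two.
-/

set_option autoImplicit false

universe u

namespace MP7fR

/-- The abelianization of a perfect group has no prime divisors. -/
theorem card_primeFactors_abelianization_of_perfect {G : Type*} [Group G]
    (h : commutator G = ⊤) : (Nat.card (Abelianization G)).primeFactors.card = 0 := by
  have : Subsingleton (Abelianization G) := by
    constructor
    intro x y
    obtain ⟨x, rfl⟩ := QuotientGroup.mk_surjective x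
    obtain ⟨y, rfl⟩ := QuotientGroup.mk_surjective y
    apply QuotientGroup.eq.mpr
    rw [h]
    exact Subgroup.mem_top _
  have h1 : Nat.card (Abelianization G) = 1 := Nat.card_unique
  rw [h1]
  simp

/-- Isomorphic groups occur together. -/
theorem Occurs.congr {G H : Type} [Group G] [Group H] {F : Type u} [Field F] (e : G ≃* H)
    (h : Occurs G F) : Occurs H F := by
  obtain ⟨L, i1, i2, h1, h2, ⟨r⟩⟩ := h
  exact ⟨L, i1, i2, h1, h2, ⟨r.trans e⟩⟩

theorem alt_even (n : ℕ) (hn : Even n) (h6 : 6 ≤ n) :
    (∀ (K : Type u) [Field K] [CharP K 2], OccursRegularly (alternatingGroup (Fin n)) K) ∧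
    (∀ (K : Type u) [Field K] [CharP K 2], IsHilbertian K →
      Occurs (alternatingGroup (Fin n)) K) := by
  have h1 : Occurs (alternatingGroup (Fin n)) (RatFunc (ZMod 2)) := MP7f.main_even n hn
  have hperf : commutator (alternatingGroup (Fin n)) = ⊤ :=
    commutator_alternatingGroup_eq_top (by rw [Nat.card_eq_fintype_card, Fintype.card_fin]; omega)
  have h2 : Occurs (Fin 1 → alternatingGroup (Fin n)) (RatFunc (ZMod 2)) :=
    h1.congr (MulEquiv.funUnique (Fin 1) (alternatingGroup (Fin n))).symm
  have h3 := per_group (G := alternatingGroup (Fin n)) (N := 1)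
    (by rw [card_primeFactors_abelianization_of_perfect hperf]; exact Nat.one_pos) h2
  refine ⟨fun K _ _ => ?_, fun K _ _ hK => ?_⟩
  · let _ : Algebra (ZMod 2) K := ZMod.algebra K 2
    exact h3.1 K
  · let _ : Algebra (ZMod 2) K := ZMod.algebra K 2
    exact h3.2 K hK

end MP7fR
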