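import Mathlib

/-!
Group-theoretic part: a surjection from a power `G^N` onto a cyclic group.
-/

set_option autoImplicit false

namespace MP7fR

open Subgroup

/-- In a finite cyclic group two subgroups whose indices have a common prime factor do not
generate the whole group. -/
theorem cyclic_sup_ne_top {C : Type*} [Group C] [IsCyclic C] [Finite C] (A B : Subgroup C)
    (l : ℕ) (hl : l.Prime) (hA : l ∣ A.index) (hB : l ∣ B.index) : A ⊔ B ≠ ⊤ := by
  intro h
  let _ : CommGroup C := IsCyclic.commGroup
  have key : ∀ K : Subgroup C, l ∣ K.index → ∀ x ∈ K, x ^ (Nat.card C / l) = 1 := by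
    intro K hK x hx
    have h1 : x ^ Nat.card K = 1 := by
      have := congrArg Subtype.val (pow_card_eq_one' (x := (⟨x, hx⟩ : K)))
      rwa [Subgroup.coe_pow, Subgroup.coe_one] at this
    obtain ⟨m, hm⟩ := hK
    have h2 : Nat.card C = Nat.card K * (l * m) := by
      rw [← hm, Subgroup.card_mul_index]
    have h3 : Nat.card C / l = Nat.card K * m := by
      rw [h2]
      rw [show Nat.card K * (l * m) = l * (Nat.card K * m) by ring]
      exact Nat.mul_div_cancel_left _ hl.pos
    rw [h3, pow_mul, h1, one_pow]
  have hall : ∀ x : C, x ^ (Nat.card C / l) = 1 := by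
    intro x
    have hx : x ∈ A ⊔ B := by rw [h]; exact Subgroup.mem_top x
    obtain ⟨a, ha, b, hb, rfl⟩ := Subgroup.mem_sup.mp hx
    rw [mul_pow, key A hA a ha, key B hB b hb, one_mul]
  have hexp : Monoid.exponent C ∣ Nat.card C / l := Monoid.exponent_dvd_of_forall_pow_eq_one hall
  rw [IsCyclic.exponent_eq_card] at hexp
  have hdvd : l ∣ Nat.card C := dvd_trans hA (Subgroup.index_dvd_card A)
  have hpos : 0 < Nat.card C := Nat.card_pos
  have hq : 0 < Nat.card C / l := Nat.div_pos (Nat.le_of_dvd hpos hdvd) hl.pos
  have := Nat.le_of_dvd hq hexp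
  have h2 : Nat.card C / l < Nat.card C := Nat.div_lt_self hpos hl.one_lt
  omega

/-- A surjection from `G^N` onto a cyclic group stays surjective on the kernel of a suitable
projection, if `N` exceeds the number of primes dividing the order of the abelianization. -/
theorem exists_coordinate {G : Type*} [Group G] [Finite G] {N : ℕ}
    (hN : (Nat.card (Abelianization G)).primeFactors.card < N)
    {C : Type*} [Group C] [IsCyclic C] [Finite C] (f : (Fin N → G) →* C)
    (hf : Function.Surjective f) :
    ∃ i : Fin N, ∀ c : C, ∃ g : Fin N → G, g i = 1 ∧ f g = c := by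
  classical
  by_contra hcon
  push Not at hcon
  let _ : CommGroup C := IsCyclic.commGroup
  let K : Fin N → Subgroup C := fun i => (Pi.evalMonoidHom (fun _ : Fin N => G) i).ker.map f
  have hK : ∀ i, K i ≠ ⊤ := by
    intro i hi
    obtain ⟨c, hc⟩ := hcon i
    have : c ∈ K i := by rw [hi]; exact Subgroup.mem_top c
    obtain ⟨g, hg, hgc⟩ := this
    exact hc g (by simpa [MonoidHom.mem_ker] using hg) hgc
  let S : Fin N → (G →* C) := fun i => f.comp (MonoidHom.mulSingle (fun _ : Fin N => G) i)
  have hsup : ∀ i, (S i).range ⊔ K i = ⊤ := by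
    intro i
    rw [eq_top_iff]
    intro c _
    obtain ⟨g, rfl⟩ := hf c
    have hg : g = Pi.mulSingle i (g i) * ((Pi.mulSingle i (g i))⁻¹ * g) := by group
    rw [hg, map_mul]
    refine Subgroup.mul_mem_sup ⟨g i, rfl⟩ ⟨_, ?_, rfl⟩
    simp [MonoidHom.mem_ker]
  have hpr : ∀ i, ∃ l, l.Prime ∧ l ∣ (K i).index := by
    intro i
    apply Nat.exists_prime_and_dvd
    intro h1
    exact hK i (Subgroup.index_eq_one.mp h1)
  choose l hlp hli using hpr
  have hlG : ∀ i, l i ∈ (Nat.card (Abelianization G)).primeFactors := by
    intro i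
    rw [Nat.mem_primeFactors]
    refine ⟨hlp i, ?_, Nat.card_pos.ne'⟩
    have h1 : (K i).index ∣ Nat.card (S i).range := by
      have : (K i).relIndex ((S i).range ⊔ K i) = (K i).relIndex (S i).range :=
        Subgroup.relIndex_sup_right _ _
      rw [hsup i, Subgroup.relIndex_top_right] at this
      rw [this]
      exact Subgroup.relIndex_dvd_card _ _
    have h2 : Nat.card (S i).range ∣ Nat.card (Abelianization G) := by
      have : (S i).range = (Abelianization.lift (S i)).range := by
        ext c
        constructor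
        · rintro ⟨g, rfl⟩
          exact ⟨Abelianization.of g, by simp⟩
        · rintro ⟨g, rfl⟩
          induction g using QuotientGroup.induction_on with
          | H g => exact ⟨g, rfl⟩
      rw [this]
      exact Subgroup.card_range_dvd _
    exact dvd_trans (hli i) (dvd_trans h1 h2)
  obtain ⟨i, j, hij, hlij⟩ : ∃ i j : Fin N, i ≠ j ∧ l i = l j := by
    by_contra hno
    push Not at hno
    have hinj : Function.Injective l := by
      intro i j h
      by_contra hne
      exact hno i j hne h
    have : Finset.card (Finset.univ.image l) ≤ (Nat.card (Abelianization G)).primeFactors.card :=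
      Finset.card_le_card (by
        intro x hx
        obtain ⟨i, _, rfl⟩ := Finset.mem_image.mp hx
        exact hlG i)
    rw [Finset.card_image_of_injective _ hinj, Finset.card_univ, Fintype.card_fin] at this
    omega
  refine cyclic_sup_ne_top (K i) (K j) (l i) (hlp i) (hli i) (hlij ▸ hli j) ?_
  rw [eq_top_iff]
  intro c _
  obtain ⟨g, rfl⟩ := hf c
  have hg : g = (g * (Pi.mulSingle i (g i))⁻¹) * Pi.mulSingle i (g i) := by group
  rw [hg, map_mul]
  refine Subgroup.mul_mem_sup ⟨_, ?_, rfl⟩ ⟨_, ?_, rfl⟩
  · simp [MonoidHom.mem_ker]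
  · simp [MonoidHom.mem_ker, Pi.mulSingle_eq_of_ne hij.symm]

end MP7fR
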