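import Pool.Agent.Lib.MP_7f581e_ntR.Key

/-!
Absolute irreducibility of the minimal polynomial of an integral primitive element of a
regular extension of `k(X)`.
-/

set_option autoImplicit false

namespace MP7fR

open IntermediateField Polynomial

/-- The polynomial ring over a field embeds in an algebraically closed field. -/
theorem exists_algClosed_embedding.{v} (K : Type v) [Field K] :
    ∃ (Ω : Type v) (_ : Field Ω) (_ : IsAlgClosed Ω) (ψ : K[X] →+* Ω), Function.Injective ψ :=
  ⟨AlgebraicClosure (FractionRing K[X]), inferInstance, inferInstance,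
    (algebraMap (FractionRing K[X]) _).comp (algebraMap K[X] (FractionRing K[X])),
    (algebraMap (FractionRing K[X]) (AlgebraicClosure (FractionRing K[X]))).injective.comp
      (IsFractionRing.injective K[X] (FractionRing K[X]))⟩

section

variable {k K F L : Type*} [Field k] [Field K] [Field F] [Field L] [Algebra k K]
  [Algebra k[X] F] [IsFractionRing k[X] F] [Algebra k F] [IsScalarTower k k[X] F]
  [Algebra F L] [Algebra k[X] L] [IsScalarTower k[X] F L] [Algebra k L] [IsScalarTower k F L]

/-- A monic factor of positive degree over `K[X]` of the minimal polynomial has full degree. -/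
theorem natDegree_le_of_monic_dvd [PerfectField k]
    (hk : ∀ y : L, IsIntegral k y → ∃ c : k, algebraMap k L c = y)
    (pb : PowerBasis F L) (hint : IsIntegral k[X] pb.gen)
    (g : K[X][X]) (hg : g.Monic)
    (hdvd : g ∣ (minpoly k[X] pb.gen).map (mapRingHom (algebraMap k K)))
    (hg0 : g.natDegree ≠ 0) :
    (minpoly F pb.gen).natDegree ≤ g.natDegree := by
  classical
  -- integrality of the coefficients
  have hcoef : ∀ i j, IsIntegral k ((g.coeff i).coeff j) := by
    intro i j
    let _ : Algebra k[X] K[X] := Polynomial.algebra k K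
    have h1 : IsIntegral k[X] (g.coeff i) :=
      Polynomial.isIntegral_coeff_of_dvd (minpoly k[X] pb.gen) g (minpoly.monic hint) hg hdvd i
    exact h1.coeff j
  let T : Finset K := g.support.biUnion fun i => (g.coeff i).support.image (g.coeff i).coeff
  have hT : ∀ i j, (g.coeff i).coeff j ∈ T ∨ (g.coeff i).coeff j = 0 := by
    intro i j
    by_cases h0 : (g.coeff i).coeff j = 0
    · exact Or.inr h0
    · left
      rw [Finset.mem_biUnion]
      refine ⟨i, ?_, ?_⟩
      · rw [mem_support_iff]
        intro h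
        rw [h] at h0
        exact h0 (coeff_zero j)
      · rw [Finset.mem_image]
        exact ⟨j, by rwa [mem_support_iff], rfl⟩
  let k₁ : IntermediateField k K := IntermediateField.adjoin k (T : Set K)
  have hfd : FiniteDimensional k k₁ := by
    apply IntermediateField.finiteDimensional_adjoin
    intro x hx
    have hx' : x ∈ T := hx
    rw [Finset.mem_biUnion] at hx'
    obtain ⟨i, _, hx'⟩ := hx'
    obtain ⟨j, _, rfl⟩ := Finset.mem_image.mp hx'
    exact hcoef i j
  have hsep : Algebra.IsSeparable k k₁ := inferInstance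
  let pb₁ : PowerBasis k k₁ := Field.powerBasisOfFiniteOfSeparable k k₁
  have hcpoly : ∀ i j, ∃ p : k[X], (g.coeff i).coeff j = aeval (pb₁.gen : K) p := by
    intro i j
    have hmem : (g.coeff i).coeff j ∈ k₁ := by
      rcases hT i j with h | h
      · exact IntermediateField.subset_adjoin k _ h
      · rw [h]; exact zero_mem k₁
    obtain ⟨p, hp⟩ := pb₁.exists_eq_aeval' ⟨_, hmem⟩
    refine ⟨p, ?_⟩
    have := congrArg (k₁.val) hp
    rw [← Polynomial.aeval_algHom_apply] at this
    exact this
  -- the big field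
  obtain ⟨Ω, _, _, ψ, hψ⟩ := exists_algClosed_embedding K
  let φ : k[X] →+* K[X] := mapRingHom (algebraMap k K)
  have hφ : Function.Injective φ := Polynomial.map_injective _ (algebraMap k K).injective
  have hψφ : Function.Injective (ψ.comp φ) := hψ.comp hφ
  let θ : F →+* Ω := IsFractionRing.lift hψφ
  have hθ : ∀ p : k[X], θ (algebraMap k[X] F p) = ψ (φ p) := fun p =>
    IsFractionRing.lift_algebraMap hψφ p
  let _ : Algebra F Ω := θ.toAlgebra
  obtain ⟨γ, hγ⟩ := IsAlgClosed.exists_root (g.map ψ) (by
    rw [degree_map_eq_of_injective hψ, degree_eq_natDegree hg.ne_zero]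
    exact_mod_cast hg0)
  have hmin : minpoly F pb.gen = (minpoly k[X] pb.gen).map (algebraMap k[X] F) :=
    minpoly.isIntegrallyClosed_eq_field_fractions' F hint
  have hγ0 : aeval γ (minpoly F pb.gen) = 0 := by
    rw [hmin, aeval_def, eval₂_map]
    have h1 : (algebraMap F Ω).comp (algebraMap k[X] F) = ψ.comp φ := RingHom.ext hθ
    rw [h1]
    obtain ⟨h, hh⟩ := hdvd
    have h2 : (minpoly k[X] pb.gen).map (ψ.comp φ) = (g.map ψ) * (h.map ψ) := by
      rw [← Polynomial.map_mul, ← hh, Polynomial.map_map]
    rw [eval₂_eq_eval_map, h2, eval_mul, hγ, zero_mul]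
  let ι : L →ₐ[F] Ω := pb.lift γ hγ0
  have hι : ι pb.gen = γ := pb.lift_gen γ hγ0
  let _ : Algebra L Ω := ι.toRingHom.toAlgebra
  let _ : Algebra k Ω := (ψ.comp (C.comp (algebraMap k K))).toAlgebra
  have hCF : ∀ c : k, algebraMap k F c = algebraMap k[X] F (C c) := by
    intro c
    rw [IsScalarTower.algebraMap_apply k k[X] F]
    rfl
  have t1 : IsScalarTower k F Ω := IsScalarTower.of_algebraMap_eq (by
    intro c
    change ψ (C (algebraMap k K c)) = θ (algebraMap k F c)
    rw [hCF, hθ]
    simp [φ])
  have t2 : IsScalarTower F L Ω := IsScalarTower.of_algebraMap_eq (by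
    intro x
    exact (ι.commutes x).symm)
  have t3 : IsScalarTower k L Ω := IsScalarTower.of_algebraMap_eq (by
    intro c
    rw [IsScalarTower.algebraMap_apply k F L, IsScalarTower.algebraMap_apply k F Ω,
      IsScalarTower.algebraMap_apply F L Ω])
  let ρ : K →+* Ω := ψ.comp C
  have hρk : ∀ c : k, ρ (algebraMap k K c) = algebraMap k Ω c := fun c => rfl
  let b : Ω := ρ (pb₁.gen : K)
  have hρa : ∀ p : k[X], ρ (aeval (pb₁.gen : K) p) = aeval b p := by
    intro p
    rw [aeval_def, hom_eval₂, aeval_def]
    rfl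
  have hb : IsIntegral k b := by
    have h1 : IsIntegral k (pb₁.gen : K) := (pb₁.isIntegral_gen).map k₁.val
    obtain ⟨p, hp, hp0⟩ := h1
    refine ⟨p, hp, ?_⟩
    have := hρa p
    rw [aeval_def, hp0, map_zero, aeval_def] at this
    exact this.symm
  have hbmem : ∀ p : k[X], aeval b p ∈ F⟮b⟯ := by
    intro p
    rw [aeval_eq_sum_range]
    refine sum_mem fun i _ => ?_
    rw [Algebra.smul_def, IsScalarTower.algebraMap_apply k F Ω]
    exact mul_mem ((F⟮b⟯).algebraMap_mem _) (pow_mem (mem_adjoin_simple_self F b) i)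
  have hXmem : ψ X ∈ F⟮b⟯ := by
    have : ψ X = algebraMap F Ω (algebraMap k[X] F X) := by
      change _ = θ _
      rw [hθ]
      simp [φ]
    rw [this]
    exact (F⟮b⟯).algebraMap_mem _
  have hlift : g.map ψ ∈ Polynomial.lifts (algebraMap F⟮b⟯ Ω) := by
    rw [Polynomial.lifts_iff_coeff_lifts]
    intro i
    rw [coeff_map]
    have hmem : ψ (g.coeff i) ∈ F⟮b⟯ := by
      rw [(g.coeff i).as_sum_range_C_mul_X_pow, map_sum]
      refine sum_mem fun j _ => ?_
      rw [map_mul, map_pow]
      refine mul_mem ?_ (pow_mem hXmem j)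
      obtain ⟨p, hp⟩ := hcpoly i j
      change ρ ((g.coeff i).coeff j) ∈ F⟮b⟯
      rw [hp, hρa]
      exact hbmem p
    exact ⟨⟨_, hmem⟩, rfl⟩
  obtain ⟨gB, hgB, hgBd, hgBm⟩ :=
    Polynomial.lifts_and_natDegree_eq_and_monic hlift (hg.map ψ)
  have hfin := key_degree (k := k) (F := F) (L := L) (Ω := Ω) hk b hb pb.gen gB
    hgBm.ne_zero (by
      change aeval (ι pb.gen) gB = 0
      rw [hι, aeval_def, eval₂_eq_eval_map, hgB]
      exact hγ)
  rw [hgBd, natDegree_map_eq_of_injective hψ] at hfin
  exact hfin

/-- Absolute irreducibility. -/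
theorem irreducible_map [PerfectField k]
    (hk : ∀ y : L, IsIntegral k y → ∃ c : k, algebraMap k L c = y)
    (pb : PowerBasis F L) (hint : IsIntegral k[X] pb.gen) :
    Irreducible ((minpoly k[X] pb.gen).map (mapRingHom (algebraMap k K))) := by
  have hm : ((minpoly k[X] pb.gen).map (mapRingHom (algebraMap k K))).Monic :=
    (minpoly.monic hint).map _
  have hmin : minpoly F pb.gen = (minpoly k[X] pb.gen).map (algebraMap k[X] F) :=
    minpoly.isIntegrallyClosed_eq_field_fractions' F hint
  have hdeg : ((minpoly k[X] pb.gen).map (mapRingHom (algebraMap k K))).natDegree =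
      (minpoly F pb.gen).natDegree := by
    rw [hmin, (minpoly.monic hint).natDegree_map, (minpoly.monic hint).natDegree_map]
  have hpos : 0 < (minpoly F pb.gen).natDegree := minpoly.natDegree_pos pb.isIntegral_gen
  rw [hm.irreducible_iff_natDegree]
  refine ⟨?_, ?_⟩
  · intro h
    rw [h, natDegree_one] at hdeg
    omega
  · intro g h hg hh hgh
    by_contra hcon
    push Not at hcon
    have h1 := natDegree_le_of_monic_dvd hk pb hint g hg ⟨h, hgh.symm⟩ hcon.1
    have h2 := natDegree_le_of_monic_dvd hk pb hint h hh ⟨g, by rw [mul_comm, hgh]⟩ hcon.2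
    have h3 : g.natDegree + h.natDegree = (minpoly F pb.gen).natDegree := by
      rw [← hg.natDegree_mul hh, hgh, hdeg]
    omega

end

end MP7fR
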