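import Mathlib

/-!
The degree lemma: constants algebraic over an algebraically closed subfield.
-/

set_option autoImplicit false

namespace MP7fR

open IntermediateField Polynomial

/-- If `k` is algebraically closed in `L` then minimal polynomials over `k` and over `L` of
elements algebraic over `k` coincide. -/
theorem minpoly_eq_map {k L Ω : Type*} [Field k] [Field L] [Field Ω] [Algebra k L]
    [Algebra k Ω] [Algebra L Ω] [IsScalarTower k L Ω]
    (hk : ∀ y : L, IsIntegral k y → ∃ c : k, algebraMap k L c = y)
    (b : Ω) (hb : IsIntegral k b) :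
    minpoly L b = (minpoly k b).map (algebraMap k L) := by
  have hbL : IsIntegral L b := hb.tower_top
  have h1 : minpoly L b ∣ (minpoly k b).map (algebraMap k L) :=
    minpoly.dvd_map_of_isScalarTower k L b
  have h2 : minpoly L b ∈ Polynomial.lifts (algebraMap k L) := by
    rw [Polynomial.lifts_iff_coeff_lifts]
    intro i
    exact hk _ (Polynomial.isIntegral_coeff_of_dvd (minpoly k b) (minpoly L b)
      (minpoly.monic hb) (minpoly.monic hbL) h1 i)
  obtain ⟨q, hq, hqd, hqm⟩ := Polynomial.lifts_and_degree_eq_and_monic h2 (minpoly.monic hbL)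
  have h3 : aeval b q = 0 := by
    have : aeval b (q.map (algebraMap k L)) = 0 := by rw [hq]; exact minpoly.aeval L b
    rwa [aeval_map_algebraMap] at this
  have h4 : (minpoly k b).degree ≤ q.degree := minpoly.min k b hqm h3
  symm
  apply Polynomial.eq_of_monic_of_dvd_of_natDegree_le (minpoly.monic hbL)
    ((minpoly.monic hb).map _) h1
  rw [natDegree_map]
  apply natDegree_le_natDegree
  rw [← hqd]
  exact h4

/-- The degree lemma. -/
theorem key_degree {k F L Ω : Type*} [Field k] [Field F] [Field L] [Field Ω]
    [Algebra k F] [Algebra k L] [Algebra k Ω] [Algebra F L] [Algebra F Ω] [Algebra L Ω]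
    [IsScalarTower k L Ω] [IsScalarTower k F Ω] [IsScalarTower F L Ω]
    (hk : ∀ y : L, IsIntegral k y → ∃ c : k, algebraMap k L c = y)
    (b : Ω) (hb : IsIntegral k b) (a : L)
    (g : Polynomial F⟮b⟯) (hg : g ≠ 0) (hga : aeval (algebraMap L Ω a) g = 0) :
    (minpoly F a).natDegree ≤ g.natDegree := by
  have hbF : IsIntegral F b := hb.tower_top
  have hdeg : (minpoly F b).natDegree = (minpoly L b).natDegree := by
    apply le_antisymm
    · rw [minpoly_eq_map hk b hb, natDegree_map]
      have h1 : minpoly F b ∣ (minpoly k b).map (algebraMap k F) :=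
        minpoly.dvd_map_of_isScalarTower k F b
      have h2 := natDegree_le_of_dvd h1 ((minpoly.monic hb).map _).ne_zero
      rwa [natDegree_map] at h2
    · have h1 : minpoly L b ∣ (minpoly F b).map (algebraMap F L) :=
        minpoly.dvd_map_of_isScalarTower F L b
      have h2 := natDegree_le_of_dvd h1 ((minpoly.monic hbF).map _).ne_zero
      rwa [natDegree_map] at h2
  have hld : (F⟮b⟯).LinearDisjoint L := by
    refine LinearDisjoint.of_basis_left (adjoin.powerBasis hbF).basis ?_
    have h1 := linearIndependent_pow (K := L) b
    rw [← hdeg] at h1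
    have h2 : (F⟮b⟯.val ∘ (adjoin.powerBasis hbF).basis) =
        fun i : Fin (minpoly F b).natDegree => b ^ (i : ℕ) := by
      funext i
      rw [Function.comp_apply, PowerBasis.basis_eq_pow, adjoin.powerBasis_gen, map_pow]
      rw [IntermediateField.coe_val, AdjoinSimple.coe_gen]
    rw [h2]
    exact h1
  have hlin := hld.linearIndependent_right' (linearIndependent_pow (K := F) a)
  by_contra hlt
  push Not at hlt
  apply hg
  rw [Fintype.linearIndependent_iff] at hlin
  have h0 := hlin (fun i => g.coeff i) (by
    rw [Polynomial.aeval_eq_sum_range' hlt] at hga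
    rw [← hga, Finset.sum_range]
    apply Finset.sum_congr rfl
    intro i _
    simp [Function.comp])
  ext1 i
  rw [coeff_zero]
  by_cases hi : i < (minpoly F a).natDegree
  · exact h0 ⟨i, hi⟩
  · exact coeff_eq_zero_of_natDegree_lt (by omega)

end MP7fR
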